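import Pool.Agent.H30.VX.Targets

/-!
# MP_d32443_co, large `k`: row T2E, the segments from T2D give a run
-/

set_option autoImplicit false

namespace Pool.Agent.H72.VX

open Finset Pool.Agent.H48.CE Pool.Agent.H30.VR Pool.Agent.H30.VX

theorem pf_T2E (hGRD : T_GRD) (hEXT : T_EXT) : T_T2E := by
  classical
  intro V _ G W L R₀ k e b a hNC hL hR hW hc ha he hk hb hcR hdeg
  have hLW : Disjoint W L := by
    rw [disjoint_left]
    intro v hv hv'
    exact (hL v hv').1 hv
  have hnbW : ∀ v, nb G (W ∪ L) v = nb G W v ∪ nb G L v := by
    intro v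
    ext w
    rw [mem_union, mem_nb, mem_nb, mem_nb, mem_union]
    tauto
  have hcard : ∀ v ∈ R₀, 3 * (a + 1) ≤ (nb G (W ∪ L) v).card := by
    intro v hv
    rw [hnbW v, card_union_of_disjoint]
    · exact hdeg v hv
    · rw [disjoint_left]
      intro w hw hw'
      rw [mem_nb] at hw hw'
      exact (hL w hw'.1).1 hw.1
  obtain ⟨f, hinj, hf⟩ := hGRD (ι := {v // v ∈ R₀} × Bool)
    (fun p => nb G (W ∪ L) p.1.1) ∅ (by
      intro i
      have h1 := hcard i.1.1 i.1.2
      rw [Fintype.card_prod, Fintype.card_coe, hcR, Fintype.card_bool, card_empty]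
      omega)
  have hfm : ∀ i, (f i ∈ W ∨ f i ∈ L) ∧ G.Adj i.1.1 (f i) := by
    intro i
    have h1 := (hf i).1
    rw [mem_nb, mem_union] at h1
    exact h1
  let σ : Fin (a + 1) ≃ {v // v ∈ R₀} := (Fintype.equivFinOfCardEq (by
    rw [Fintype.card_coe, hcR])).symm
  have hRne : ∀ (v : {v // v ∈ R₀}) (w : V), (w ∈ W ∨ w ∈ L) → v.1 ≠ w := by
    intro v w hw h
    have h1 := hR v.1 v.2
    rw [h] at h1
    rcases hw with h2 | h2
    · exact h1.1 h2
    · exact h1.2 h2
  have key := hEXT G W L e b (a + 1) (fun i => f (σ i, true)) (fun i => f (σ i, false))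
    (fun i => [(σ i).1]) hNC hL
    (by
      intro i
      refine ⟨(hfm _).1, (hfm _).1, ⟨?_, ?_⟩, ?_⟩
      · simp only [List.cons_append, List.nil_append, List.nodup_cons, List.mem_cons,
          List.not_mem_nil, or_false, not_or, List.nodup_nil, and_true, not_false_eq_true]
        refine ⟨⟨fun h => hRne (σ i) _ (hfm (σ i, true)).1 h.symm, fun h => ?_⟩,
          hRne (σ i) _ (hfm (σ i, false)).1⟩
        have h1 := hinj h
        simp at h1
      · simp only [List.cons_append, List.nil_append, List.isChain_cons_cons,
          List.isChain_singleton, and_true]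
        exact ⟨(hfm (σ i, true)).2.symm, (hfm (σ i, false)).2⟩
      · intro v hv
        rw [List.mem_singleton] at hv
        subst hv
        exact hR _ (σ i).2)
    (by
      intro i j hij v hv hv'
      have hne : σ i ≠ σ j := fun h => hij (σ.injective h)
      simp only [List.cons_append, List.nil_append, List.mem_cons,
          List.not_mem_nil, or_false] at hv hv'
      have hA : ∀ s t : Bool, f (σ i, s) ≠ f (σ j, t) := by
        intro s t h
        have h1 := hinj h
        rw [Prod.mk.injEq] at h1
        exact hne h1.1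
      rcases hv with rfl | rfl | rfl
      · rcases hv' with h | h | h
        · exact hA _ _ h
        · exact hRne (σ j) _ (hfm (σ i, true)).1 h.symm
        · exact hA _ _ h
      · rcases hv' with h | h | h
        · exact hRne (σ i) _ (hfm (σ j, true)).1 h
        · exact hne (Subtype.ext h)
        · exact hRne (σ i) _ (hfm (σ j, false)).1 h
      · rcases hv' with h | h | h
        · exact hA _ _ h
        · exact hRne (σ j) _ (hfm (σ i, false)).1 h.symm
        · exact hA _ _ h)
    (by omega) (by omega)
    (by
      simp only [List.length_singleton, sum_const, card_univ, Fintype.card_fin, smul_eq_mul,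
        mul_one]
      omega)
  simp only [List.length_singleton, sum_const, card_univ, Fintype.card_fin, smul_eq_mul,
        mul_one] at key
  refine hasRun_of_interval (x := 3) fun N h3 hN => key N h3 ?_
  omega

end Pool.Agent.H72.VX
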